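import Mathlib

set_option autoImplicit false

namespace Pool.Agent.Results.MP_2db6a9_co.NotDiff

open Finset

open Classical in
noncomputable def phi (X : Set (ℕ × ℕ)) : ℝ :=
  if ∃ n : ℕ, ∃ T : Finset ℕ, n < T.card ∧ ∀ t ∈ T, (n, t) ∈ X then 1 else 0

theorem phi_mono : Monotone phi := by
  intro X Y h
  unfold phi
  split_ifs with h1 h2
  · exact le_rfl
  · obtain ⟨n, T, a, b⟩ := h1
    exact absurd ⟨n, T, a, fun t ht => h (b t ht)⟩ h2
  · exact zero_le_one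
  · exact le_rfl

def F (i j : ℕ) : Finset ℕ := (range i).image (fun t => 2 * t) ∪ (range j).image (fun t => 2 * t + 1)

def G (n i j : ℕ) : Set (ℕ × ℕ) := {p | p.1 = n ∧ p.2 ∈ F i j}

theorem mem_F (i j t : ℕ) : t ∈ F i j ↔ (t % 2 = 0 ∧ t / 2 < i) ∨ (t % 2 = 1 ∧ t / 2 < j) := by
  simp only [F, mem_union, mem_image, mem_range]
  constructor
  · rintro (⟨a, h, rfl⟩ | ⟨a, h, rfl⟩) <;> omega
  · rintro (h | h)
    · exact Or.inl ⟨t / 2, h.2, by omega⟩
    · exact Or.inr ⟨t / 2, h.2, by omega⟩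

theorem card_F (i j : ℕ) : (F i j).card = i + j := by
  rw [F, card_union_of_disjoint, card_image_of_injective _ fun a b h => by simpa using h,
    card_image_of_injective _ fun a b h => by simpa using h, card_range, card_range]
  rw [disjoint_left]
  intro t h1 h2
  simp only [mem_image] at h1 h2
  obtain ⟨a, _, rfl⟩ := h1
  obtain ⟨b, _, h⟩ := h2
  omega

theorem phi_G (n i j : ℕ) : phi (G n i j) = if n < i + j then 1 else 0 := by
  classical
  unfold phi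
  refine if_congr ⟨?_, fun h => ⟨n, F i j, by rwa [card_F], fun t ht => ⟨rfl, ht⟩⟩⟩ rfl rfl
  rintro ⟨m, T, h1, h2⟩
  obtain ⟨t, ht⟩ : T.Nonempty := card_pos.1 (by omega)
  have e : m = n := (h2 t ht).1
  have : T.card ≤ (F i j).card := card_le_card fun s hs => (h2 s hs).2
  rw [card_F] at this
  omega

theorem G_inter (n i j : ℕ) : G n (i + 1) j ∩ G n i (j + 1) = G n i j := by
  ext p; simp only [G, Set.mem_inter_iff, Set.mem_ofPred_eq, mem_F]; omega

theorem G_union (n i j : ℕ) : G n (i + 1) j ∪ G n i (j + 1) = G n (i + 1) (j + 1) := by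
  ext p; simp only [G, Set.mem_union, Set.mem_ofPred_eq, mem_F]; omega

theorem result : ∃ φ : Set (ℕ × ℕ) → ℝ, Monotone φ ∧
    ¬ ∃ ψ₁ ψ₂ : Set (ℕ × ℕ) → ℝ,
      (∃ b, ∀ X, |ψ₁ X| ≤ b) ∧ (∃ b, ∀ X, |ψ₂ X| ≤ b) ∧
      (∀ X Y, ψ₁ (X ∩ Y) + ψ₁ (X ∪ Y) ≤ ψ₁ X + ψ₁ Y) ∧
      (∀ X Y, ψ₂ (X ∩ Y) + ψ₂ (X ∪ Y) ≤ ψ₂ X + ψ₂ Y) ∧ ∀ X, φ X = ψ₁ X - ψ₂ X := by
  refine ⟨phi, phi_mono, ?_⟩
  rintro ⟨ψ₁, ψ₂, ⟨b, hb⟩, -, h1, h2, he⟩
  obtain ⟨n, hn⟩ := exists_nat_gt (4 * b)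
  let a : ℕ → ℕ → ℝ := fun i j => ψ₁ (G n i j)
  let s : ℕ → ℕ → ℝ := fun i j => (a (i + 1) j - a (i + 1) (j + 1)) - (a i j - a i (j + 1))
  have s0 : ∀ i j, 0 ≤ s i j := fun i j => by
    have := h1 (G n (i + 1) j) (G n i (j + 1))
    rw [G_inter, G_union] at this
    simp only [s, a]; linarith
  have s1 : ∀ i j, i + j = n → 1 ≤ s i j := fun i j hij => by
    have := h2 (G n (i + 1) j) (G n i (j + 1))
    rw [G_inter, G_union] at this
    have e1 := he (G n (i + 1) j)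
    have e2 := he (G n i (j + 1))
    have e3 := he (G n i j)
    have e4 := he (G n (i + 1) (j + 1))
    rw [phi_G, if_pos (by omega)] at e1 e2 e4
    rw [phi_G, if_neg (by omega)] at e3
    simp only [s, a]; linarith
  have tot : ∑ j ∈ range (n + 1), ∑ i ∈ range (n + 1), s i j =
      (a (n + 1) 0 - a 0 0) - (a (n + 1) (n + 1) - a 0 (n + 1)) := by
    have : ∀ j, ∑ i ∈ range (n + 1), s i j =
        (a (n + 1) j - a 0 j) - (a (n + 1) (j + 1) - a 0 (j + 1)) := fun j => by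
      rw [sum_range_sub (fun i => a i j - a i (j + 1))]; ring
    simp only [this]
    exact sum_range_sub' (fun j => a (n + 1) j - a 0 j) (n + 1)
  have low : ∑ j ∈ range (n + 1), (1 : ℝ) ≤ ∑ j ∈ range (n + 1), ∑ i ∈ range (n + 1), s i j := by
    refine sum_le_sum fun j hj => ?_
    have hj' := mem_range.1 hj
    exact (s1 (n - j) j (by omega)).trans
      (single_le_sum (f := fun i => s i j) (fun i _ => s0 i j) (mem_range.2 (by omega)))
  rw [tot] at low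
  simp only [sum_const, card_range, nsmul_eq_mul, mul_one] at low
  have b1 := abs_le.1 (hb (G n (n + 1) 0))
  have b2 := abs_le.1 (hb (G n 0 0))
  have b3 := abs_le.1 (hb (G n (n + 1) (n + 1)))
  have b4 := abs_le.1 (hb (G n 0 (n + 1)))
  push_cast at low
  simp only [a] at low
  linarith [b1.2, b2.1, b3.1, b4.2]

end Pool.Agent.Results.MP_2db6a9_co.NotDiff
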